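import Pool.Agent.H606.OS.Stm

open MeasureTheory Filter Topology Finset
open Pool.Agent.H606.OS

namespace Pool.Agent.H628.OS.FC

theorem slope_le {f f' : ℝ → ℝ} (hd : ∀ w, HasDerivAt f (f' w) w) (h0 : f 0 = 0)
    (hm : ∀ a b, 0 ≤ a → a ≤ b → f' a ≤ f' b) {w : ℝ} (hw : 0 ≤ w) : f w ≤ w * f' w := by
  rcases hw.eq_or_lt with rfl | hw
  · rw [h0, zero_mul]
  obtain ⟨c, hc, he⟩ := exists_hasDerivAt_eq_slope f f' hw
    (fun x _ => (hd x).continuousAt.continuousWithinAt) (fun x _ => hd x)
  rw [h0, sub_zero, sub_zero] at he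
  have h1 := hm c w hc.1.le hc.2.le
  rw [he, div_le_iff₀ hw] at h1
  linarith

theorem nonneg_of {f f' : ℝ → ℝ} (hd : ∀ w, HasDerivAt f (f' w) w) (h0 : f 0 = 0)
    (hm : ∀ a, 0 ≤ a → 0 ≤ f' a) {w : ℝ} (hw : 0 ≤ w) : 0 ≤ f w := by
  rcases hw.eq_or_lt with rfl | hw
  · rw [h0]
  obtain ⟨c, hc, he⟩ := exists_hasDerivAt_eq_slope f f' hw
    (fun x _ => (hd x).continuousAt.continuousWithinAt) (fun x _ => hd x)
  rw [h0, sub_zero, sub_zero] at he
  have h1 := hm c hc.1.le
  rw [he] at h1
  exact (div_nonneg_iff.1 h1).elim (fun h => h.1) (fun h => absurd h.2 (not_le.2 hw))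

theorem cosh_mono {a b : ℝ} (ha : 0 ≤ a) (hab : a ≤ b) : Real.cosh a ≤ Real.cosh b :=
  Real.cosh_le_cosh.2 (by rw [abs_of_nonneg ha, abs_of_nonneg (ha.trans hab)]; exact hab)

theorem d_sinh_sub (w : ℝ) : HasDerivAt (fun w => Real.sinh w - w) (Real.cosh w - 1) w :=
  (Real.hasDerivAt_sinh w).sub (hasDerivAt_id w)

theorem d_cosh_sub (w : ℝ) : HasDerivAt (fun w => Real.cosh w - 1) (Real.sinh w) w :=
  (Real.hasDerivAt_cosh w).sub_const 1

theorem d_cosh_sub2 (w : ℝ) :
    HasDerivAt (fun w => Real.cosh w - 1 - w ^ 2 / 2) (Real.sinh w - w) w := by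
  refine ((d_cosh_sub w).sub ((hasDerivAt_pow 2 w).div_const 2)).congr_deriv ?_
  norm_num

theorem b1 {w : ℝ} (hw : 0 ≤ w) : 0 ≤ Real.sinh w ∧ Real.sinh w ≤ w * Real.cosh w :=
  ⟨Real.sinh_nonneg_iff.2 hw, slope_le Real.hasDerivAt_sinh Real.sinh_zero
    (fun a b ha hab => cosh_mono ha hab) hw⟩

theorem b2 {w : ℝ} (hw : 0 ≤ w) : 0 ≤ Real.cosh w - 1 ∧ Real.cosh w - 1 ≤ w ^ 2 * Real.cosh w := by
  refine ⟨sub_nonneg.2 (Real.one_le_cosh w), ?_⟩
  have h1 := slope_le (f := fun w => Real.cosh w - 1) (f' := Real.sinh) d_cosh_sub (by simp)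
    (fun _ _ _ hab => Real.sinh_le_sinh.2 hab) hw
  have h2 : w * Real.sinh w ≤ w * (w * Real.cosh w) := mul_le_mul_of_nonneg_left (b1 hw).2 hw
  beta_reduce at h1
  nlinarith

theorem b3 {w : ℝ} (hw : 0 ≤ w) : 0 ≤ Real.sinh w - w ∧ Real.sinh w - w ≤ w ^ 3 * Real.cosh w := by
  refine ⟨nonneg_of (f := fun w => Real.sinh w - w) d_sinh_sub (by simp)
    (fun a ha => (b2 ha).1) hw, ?_⟩
  have h1 := slope_le (f := fun w => Real.sinh w - w) (f' := fun w => Real.cosh w - 1) d_sinh_sub
    (by simp) (fun a b ha hab => sub_le_sub_right (cosh_mono ha hab) 1) hw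
  have h2 : w * (Real.cosh w - 1) ≤ w * (w ^ 2 * Real.cosh w) :=
    mul_le_mul_of_nonneg_left (b2 hw).2 hw
  beta_reduce at h1
  nlinarith

theorem b4 {w : ℝ} (hw : 0 ≤ w) : 0 ≤ Real.cosh w - 1 - w ^ 2 / 2 ∧
    Real.cosh w - 1 - w ^ 2 / 2 ≤ w ^ 4 * Real.cosh w := by
  refine ⟨nonneg_of (f := fun w => Real.cosh w - 1 - w ^ 2 / 2) d_cosh_sub2 (by simp)
    (fun a ha => (b3 ha).1) hw, ?_⟩
  have hmono : Monotone (fun w => Real.sinh w - w) :=
    monotone_of_deriv_nonneg (fun w => (d_sinh_sub w).differentiableAt)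
      (fun w => by rw [(d_sinh_sub w).deriv]; exact sub_nonneg.2 (Real.one_le_cosh w))
  have h1 := slope_le (f := fun w => Real.cosh w - 1 - w ^ 2 / 2)
    (f' := fun w => Real.sinh w - w) d_cosh_sub2
    (by simp) (fun a b _ hab => hmono hab) hw
  have h2 : w * (Real.sinh w - w) ≤ w * (w ^ 3 * Real.cosh w) :=
    mul_le_mul_of_nonneg_left (b3 hw).2 hw
  beta_reduce at h1
  nlinarith

theorem even_int {g : ℝ → ℝ} (hc : Continuous g) (he : ∀ u, g (-u) = g u) :
    ∫ u in (-1 : ℝ)..1, g u = 2 * ∫ u in (0 : ℝ)..1, g u := by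
  have h1 : ∫ u in (-1 : ℝ)..0, g u = ∫ u in (0 : ℝ)..1, g u := by
    have := intervalIntegral.integral_comp_neg (f := g) (a := (0:ℝ)) (b := 1)
    rw [neg_zero] at this
    rw [← this]
    exact intervalIntegral.integral_congr fun u _ => he u
  rw [← intervalIntegral.integral_add_adjacent_intervals (b := 0) (hc.intervalIntegrable _ _)
    (hc.intervalIntegrable _ _), h1]
  ring

theorem abs_int_le {g : ℝ → ℝ} {M : ℝ} (h : ∀ u ∈ Set.Icc (0:ℝ) 1, |g u| ≤ M) :
    |∫ u in (0 : ℝ)..1, g u| ≤ M := by
  have h1 := intervalIntegral.norm_integral_le_of_norm_le_const (a := (0:ℝ)) (b := 1) (f := g)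
    (C := M) (fun u hu => by
      rw [Set.uIoc_of_le zero_le_one] at hu
      exact h u ⟨hu.1.le, hu.2⟩)
  rw [sub_zero, abs_one, mul_one] at h1
  exact h1

/-- two integrations by parts -/
theorem ibp {h h1 h2 : ℝ → ℝ} (hd : ∀ u, HasDerivAt h (h1 u) u) (hd1 : ∀ u, HasDerivAt h1 (h2 u) u)
    (hc2 : Continuous h2) (he : ∀ u, h (-u) = h u) {M : ℝ}
    (hM : ∀ u ∈ Set.Icc (0:ℝ) 1, |h u| ≤ M ∧ |h1 u| ≤ M ∧ |h2 u| ≤ M) (x : ℝ) :
    |∫ u in (-1 : ℝ)..1, (1 - |u|) * Real.cos (u * x) * h u| ≤ 14 * M * ka x := by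
  have hc : Continuous h := continuous_iff_continuousAt.2 fun u => (hd u).continuousAt
  have hc1 : Continuous h1 := continuous_iff_continuousAt.2 fun u => (hd1 u).continuousAt
  have e1 : ∫ u in (-1 : ℝ)..1, (1 - |u|) * Real.cos (u * x) * h u =
      2 * ∫ u in (0 : ℝ)..1, (1 - u) * h u * Real.cos (u * x) := by
    rw [even_int (by fun_prop) (fun u => by rw [abs_neg, neg_mul, Real.cos_neg, he])]
    congr 1
    refine intervalIntegral.integral_congr fun u hu => ?_
    rw [Set.uIcc_of_le zero_le_one] at hu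
    beta_reduce
    rw [abs_of_nonneg hu.1]
    ring
  have hM0 : 0 ≤ M := (abs_nonneg _).trans (hM 0 (by simp)).1
  set I := ∫ u in (0 : ℝ)..1, (1 - u) * h u * Real.cos (u * x) with hI
  have t1 : |I| ≤ M := by
    refine abs_int_le fun u hu => ?_
    rw [abs_mul, abs_mul]
    have a1 : |1 - u| ≤ 1 := by rw [abs_le]; constructor <;> linarith [hu.1, hu.2]
    calc |1 - u| * |h u| * |Real.cos (u * x)| ≤ 1 * M * 1 := by
          gcongr
          · exact (hM u hu).1
          · exact Real.abs_cos_le_one _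
      _ = M := by ring
  have t2 : x ^ 2 * |I| ≤ 6 * M := by
    by_cases hx : x = 0
    · rw [hx]; simp; positivity
    have w1 : ∀ u, HasDerivAt (fun u => (1 - u) * h u) (-h u + (1 - u) * h1 u) u := by
      intro u
      refine (((hasDerivAt_id u).const_sub 1).mul (hd u)).congr_deriv ?_
      simp
    have w2 : ∀ u, HasDerivAt (fun u => -h u + (1 - u) * h1 u) (-2 * h1 u + (1 - u) * h2 u) u := by
      intro u
      refine ((hd u).neg.add (((hasDerivAt_id u).const_sub 1).mul (hd1 u))).congr_deriv ?_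
      simp
      ring
    have hux : ∀ u : ℝ, HasDerivAt (fun u => u * x) x u := fun u => by
      simpa using (hasDerivAt_id u).mul_const x
    have s1 : ∀ u, HasDerivAt (fun u => Real.sin (u * x) / x) (Real.cos (u * x)) u := by
      intro u
      refine (((hux u).sin).div_const x).congr_deriv ?_
      field_simp
    have s2 : ∀ u, HasDerivAt (fun u => -Real.cos (u * x) / x ^ 2) (Real.sin (u * x) / x) u := by
      intro u
      refine (((hux u).cos).neg.div_const (x ^ 2)).congr_deriv ?_
      field_simp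
    have i1 := intervalIntegral.integral_mul_deriv_eq_deriv_mul (a := (0:ℝ)) (b := 1)
      (fun u _ => w1 u) (fun u _ => s1 u) (Continuous.intervalIntegrable (by fun_prop) _ _)
      (Continuous.intervalIntegrable (by fun_prop) _ _)
    have i2 := intervalIntegral.integral_mul_deriv_eq_deriv_mul (a := (0:ℝ)) (b := 1)
      (fun u _ => w2 u) (fun u _ => s2 u) (Continuous.intervalIntegrable (by fun_prop) _ _)
      (Continuous.intervalIntegrable (by fun_prop) _ _)
    simp only [sub_self, zero_mul, Real.sin_zero, zero_div, mul_zero, sub_zero, zero_sub,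
      one_mul, Real.cos_zero, add_zero] at i1 i2
    rw [← hI] at i1
    have e2 : x ^ 2 * I = (-h 1 * Real.cos x) + (h 0 - h1 0) -
        ∫ u in (0:ℝ)..1, (-2 * h1 u + (1 - u) * h2 u) * Real.cos (u * x) := by
      have e3 : ∫ u in (0:ℝ)..1, (-2 * h1 u + (1 - u) * h2 u) * (-Real.cos (u * x) / x ^ 2) =
          -(1 / x ^ 2) * ∫ u in (0:ℝ)..1, (-2 * h1 u + (1 - u) * h2 u) * Real.cos (u * x) := by
        rw [← intervalIntegral.integral_const_mul]
        refine intervalIntegral.integral_congr fun u _ => ?_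
        ring
      rw [e3] at i2
      rw [i1, i2]
      field_simp
      ring
    have e4 : |x ^ 2 * I| ≤ 6 * M := by
      rw [e2]
      have b0 := hM 0 (by simp)
      have b1 := hM 1 (by simp)
      have j1 : |-h 1 * Real.cos x| ≤ M := by
        rw [abs_mul, abs_neg]
        calc |h 1| * |Real.cos x| ≤ M * 1 := by
              gcongr
              · exact b1.1
              · exact Real.abs_cos_le_one _
          _ = M := by ring
      have j2 : |h 0 - h1 0| ≤ 2 * M := by
        refine (abs_sub _ _).trans ?_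
        linarith [b0.1, b0.2.1]
      have j3 : |∫ u in (0:ℝ)..1, (-2 * h1 u + (1 - u) * h2 u) * Real.cos (u * x)| ≤ 3 * M := by
        refine abs_int_le fun u hu => ?_
        rw [abs_mul]
        have a1 : |1 - u| ≤ 1 := by rw [abs_le]; constructor <;> linarith [hu.1, hu.2]
        have a2 : |-2 * h1 u + (1 - u) * h2 u| ≤ 3 * M := by
          refine (abs_add_le _ _).trans ?_
          rw [abs_mul, abs_mul, abs_neg, abs_two]
          have : |1 - u| * |h2 u| ≤ 1 * M := by
            gcongr
            exact (hM u hu).2.2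
          linarith [(hM u hu).2.1]
        calc |-2 * h1 u + (1 - u) * h2 u| * |Real.cos (u * x)| ≤ 3 * M * 1 := by
              gcongr
              exact Real.abs_cos_le_one _
          _ = 3 * M := by ring
      refine (abs_sub _ _).trans ?_
      have := abs_add_le (-h 1 * Real.cos x) (h 0 - h1 0)
      linarith
    rw [abs_mul, abs_of_nonneg (sq_nonneg x)] at e4
    exact e4
  rw [e1, abs_mul, abs_two]
  unfold ka
  rw [mul_one_div, le_div_iff₀ (by positivity)]
  nlinarith

theorem fc_abs (x v : ℝ) : fc x v = fc x |v| := by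
  unfold fc
  refine intervalIntegral.integral_congr fun u _ => ?_
  rw [← Real.cosh_abs (u * v), ← Real.cosh_abs (u * |v|), abs_mul, abs_mul, abs_abs]

theorem fc_cont (v : ℝ) : Continuous (fun x => fc x v) := by
  unfold fc
  exact intervalIntegral.continuous_parametric_intervalIntegral_of_continuous'
    (f := fun x u => (1 - |u|) * Real.cos (u * x) * Real.cosh (u * v)) (by
      unfold Function.uncurry
      have := Real.continuous_cosh
      fun_prop) _ _

theorem t_FC (hFJ : S_FJ) : S_FC := by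
  refine ⟨28, by norm_num, fc_cont, ?_, ?_⟩
  · intro x v
    rw [fc_abs x v, ← sq_abs v]
    rw [show v ^ 4 = |v| ^ 4 by rw [← abs_pow, abs_of_nonneg (by positivity)]]
    set a := |v| with ha
    have ha0 : 0 ≤ a := abs_nonneg v
    have hua : ∀ u : ℝ, HasDerivAt (fun u => u * a) a u := fun u => by
      simpa using (hasDerivAt_id u).mul_const a
    have hd : ∀ u, HasDerivAt (fun u => Real.cosh (u * a) - 1 - (u * a) ^ 2 / 2)
        (a * (Real.sinh (u * a) - u * a)) u := by
      intro u
      have := (d_cosh_sub2 (u * a)).comp u (hua u)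
      refine this.congr_deriv ?_
      ring
    have hd1 : ∀ u, HasDerivAt (fun u => a * (Real.sinh (u * a) - u * a))
        (a ^ 2 * (Real.cosh (u * a) - 1)) u := by
      intro u
      have := ((d_sinh_sub (u * a)).comp u (hua u)).const_mul a
      refine this.congr_deriv ?_
      ring
    have key := ibp hd hd1 (by have := Real.continuous_cosh; fun_prop)
      (fun u => by rw [neg_mul, Real.cosh_neg, neg_sq]) (M := a ^ 4 * Real.exp a) (fun u hu => by
        have hw : 0 ≤ u * a := mul_nonneg hu.1 ha0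
        have hwa : u * a ≤ a := mul_le_of_le_one_left ha0 hu.2
        have hch : Real.cosh (u * a) ≤ Real.exp a := by
          refine (cosh_mono hw hwa).trans ?_
          rw [Real.cosh_eq]
          have : Real.exp (-a) ≤ Real.exp a := Real.exp_le_exp.2 (by linarith)
          linarith
        have hc0 : 0 ≤ Real.cosh (u * a) := (Real.cosh_pos _).le
        have p4 := b4 hw
        have p3 := b3 hw
        have p2 := b2 hw
        refine ⟨?_, ?_, ?_⟩
        · rw [abs_of_nonneg p4.1]
          refine p4.2.trans ?_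
          gcongr
        · rw [abs_of_nonneg (mul_nonneg ha0 p3.1)]
          calc a * (Real.sinh (u * a) - u * a) ≤ a * ((u * a) ^ 3 * Real.cosh (u * a)) := by
                gcongr; exact p3.2
            _ ≤ a * (a ^ 3 * Real.exp a) := by gcongr
            _ = a ^ 4 * Real.exp a := by ring
        · rw [abs_of_nonneg (mul_nonneg (sq_nonneg a) p2.1)]
          calc a ^ 2 * (Real.cosh (u * a) - 1) ≤ a ^ 2 * ((u * a) ^ 2 * Real.cosh (u * a)) := by
                gcongr; exact p2.2
            _ ≤ a ^ 2 * (a ^ 2 * Real.exp a) := by gcongr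
            _ = a ^ 4 * Real.exp a := by ring) x
    have e1 : fc x a - fj x - a ^ 2 / 2 * pp x =
        ∫ u in (-1 : ℝ)..1, (1 - |u|) * Real.cos (u * x) *
          (Real.cosh (u * a) - 1 - (u * a) ^ 2 / 2) := by
      unfold fc fj pp
      have hcc := Real.continuous_cosh
      rw [← intervalIntegral.integral_const_mul, ← intervalIntegral.integral_sub
        (Continuous.intervalIntegrable (by fun_prop) _ _)
        (Continuous.intervalIntegrable (by fun_prop) _ _), ← intervalIntegral.integral_sub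
        (Continuous.intervalIntegrable (by fun_prop) _ _)
        (Continuous.intervalIntegrable (by fun_prop) _ _)]
      refine intervalIntegral.integral_congr fun u _ => ?_
      ring
    rw [e1]
    refine key.trans ?_
    have hk : 0 ≤ ka x := by unfold ka; positivity
    have : 0 ≤ a ^ 4 * Real.exp a := by positivity
    nlinarith [mul_nonneg this hk]
  · intro x v
    rw [fc_abs x v]
    set a := |v| with ha
    have ha0 : 0 ≤ a := abs_nonneg v
    have hua : ∀ u : ℝ, HasDerivAt (fun u => u * a) a u := fun u => by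
      simpa using (hasDerivAt_id u).mul_const a
    have hd : ∀ u, HasDerivAt (fun u => Real.cosh (u * a)) (a * Real.sinh (u * a)) u := by
      intro u
      have := (Real.hasDerivAt_cosh (u * a)).comp u (hua u)
      refine this.congr_deriv ?_
      ring
    have hd1 : ∀ u, HasDerivAt (fun u => a * Real.sinh (u * a)) (a ^ 2 * Real.cosh (u * a)) u := by
      intro u
      have := ((Real.hasDerivAt_sinh (u * a)).comp u (hua u)).const_mul a
      refine this.congr_deriv ?_
      ring
    have hexp : 1 + a + a ^ 2 / 2 ≤ Real.exp a := Real.quadratic_le_exp_of_nonneg ha0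
    have h2e : Real.exp (2 * a) = Real.exp a * Real.exp a := by
      rw [← Real.exp_add]; ring_nf
    have hpe := Real.exp_pos a
    have key := ibp hd hd1 (by have := Real.continuous_cosh; fun_prop)
      (fun u => by rw [neg_mul, Real.cosh_neg]) (M := 2 * Real.exp (2 * a)) (fun u hu => by
        have hw : 0 ≤ u * a := mul_nonneg hu.1 ha0
        have hwa : u * a ≤ a := mul_le_of_le_one_left ha0 hu.2
        have hch : Real.cosh (u * a) ≤ Real.exp a := by
          refine (cosh_mono hw hwa).trans ?_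
          rw [Real.cosh_eq]
          have : Real.exp (-a) ≤ Real.exp a := Real.exp_le_exp.2 (by linarith)
          linarith
        have hsh : Real.sinh (u * a) ≤ Real.exp a :=
          (Real.sinh_lt_cosh (u * a)).le.trans hch
        have hc0 : 0 ≤ Real.cosh (u * a) := (Real.cosh_pos _).le
        have hs0 := (b1 hw).1
        rw [h2e]
        refine ⟨?_, ?_, ?_⟩
        · rw [abs_of_nonneg hc0]
          nlinarith
        · rw [abs_of_nonneg (mul_nonneg ha0 hs0)]
          calc a * Real.sinh (u * a) ≤ Real.exp a * Real.exp a := by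
                gcongr; nlinarith [sq_nonneg a]
            _ ≤ 2 * (Real.exp a * Real.exp a) := by nlinarith
        · rw [abs_of_nonneg (mul_nonneg (sq_nonneg a) hc0)]
          calc a ^ 2 * Real.cosh (u * a) ≤ (2 * Real.exp a) * Real.exp a := by
                gcongr; nlinarith [sq_nonneg a]
            _ = 2 * (Real.exp a * Real.exp a) := by ring) x
    refine key.trans (le_of_eq ?_)
    ring

end Pool.Agent.H628.OS.FC
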